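import Pool.Agent.H6.FI.TargetsB

/-!
# MP_7500ea_al, row AEC: group theory of the central extensions
-/

open scoped Classical ComplexConjugate

namespace Pool.Agent.H67.FI

open _root_.FI AMc AMt

theorem card_A5 : Nat.card A5 = 60 := by
  have h := nat_card_alternatingGroup (α := Fin 5)
  rw [h, Nat.card_eq_fintype_card, Fintype.card_fin]
  decide

theorem card_S5 : Nat.card (Equiv.Perm (Fin 5)) = 120 := by
  rw [Nat.card_eq_fintype_card, Fintype.card_perm, Fintype.card_fin]
  decide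

theorem perf_A5 : ⁅A5, A5⁆ = A5 :=
  commutator_alternatingGroup_eq_self (α := Fin 5) (by simp)

theorem above_A5 (H : Subgroup (Equiv.Perm (Fin 5))) (h : A5 ≤ H) : H = A5 ∨ H = ⊤ := by
  have h1 := Subgroup.relIndex_mul_index h
  have h2 : (A5).index = 2 := alternatingGroup.index_eq_two
  rw [h2] at h1
  have h3 : H.index ∣ 2 := ⟨_, by rw [mul_comm]; exact h1.symm⟩
  rcases (Nat.dvd_prime Nat.prime_two).1 h3 with h4 | h4
  · right
    exact Subgroup.index_eq_one.1 h4
  · left
    rw [h4] at h1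
    have h5 : (A5).relIndex H = 1 := by omega
    exact le_antisymm (Subgroup.relIndex_eq_one.1 h5) h

theorem pf_AEC : T_AEC := by
  intro Γ _ _ Z M C δ h
  have hM := h.nor
  have hCk : C = δ.ker := by
    ext g
    rw [h.ker g, MonoidHom.mem_ker]
  have hZM : Z ≤ M := by rw [← h.inf]; exact inf_le_left
  have hZC : Z ≤ C := by rw [← h.inf]; exact inf_le_right
  have h3 : M ≤ Z ⊔ ⁅M, M⁆ := by
    intro m hm
    have h1 : δ m ∈ (⁅M, M⁆).map δ := by
      rw [Subgroup.map_commutator, h.map, perf_A5, ← h.map]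
      exact ⟨m, hm, rfl⟩
    obtain ⟨m', hm', he⟩ := h1
    have hmM : m' ∈ M := Subgroup.commutator_le_right M M hm'
    have hz : m * m'⁻¹ ∈ Z := by
      rw [← h.inf]
      refine ⟨M.mul_mem hm (M.inv_mem hmM), ?_⟩
      change m * m'⁻¹ ∈ C
      rw [h.ker, map_mul, map_inv, he, mul_inv_cancel]
    have h2 : m = (m * m'⁻¹) * m' := by group
    rw [h2]
    exact Subgroup.mul_mem_sup hz hm'
  have h1 : ∀ m ∈ M, ∀ c ∈ C, m * c = c * m := by
    intro m hm c hc
    have hκ : ∀ m ∈ M, ∃ z ∈ Z, c * m * c⁻¹ = z * m := by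
      intro m hm
      refine ⟨c * m * c⁻¹ * m⁻¹, ?_, by group⟩
      rw [← h.inf]
      refine ⟨M.mul_mem (hM.conj_mem m hm c) (M.inv_mem hm), ?_⟩
      change c * m * c⁻¹ * m⁻¹ ∈ C
      have hc1 : δ c = 1 := (h.ker c).1 hc
      rw [h.ker, map_mul, map_mul, map_mul, map_inv, map_inv, hc1]
      group
    have hle : Z ⊔ ⁅M, M⁆ ≤ Subgroup.centralizer {c} := by
      refine sup_le ?_ ?_
      · intro z hz
        rw [Subgroup.mem_centralizer_singleton_iff]
        exact h.cen z hz c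
      · rw [Subgroup.commutator_le]
        intro a ha b hb
        rw [Subgroup.mem_centralizer_singleton_iff]
        obtain ⟨z, hz, hza⟩ := hκ a ha
        obtain ⟨w, hw, hwb⟩ := hκ b hb
        have e1 : c * (a * b * a⁻¹ * b⁻¹) * c⁻¹ = z * a * (w * b) * (z * a)⁻¹ * (w * b)⁻¹ := by
          rw [← hza, ← hwb]
          group
        have e2 : z * a * (w * b) * (z * a)⁻¹ * (w * b)⁻¹ = a * b * a⁻¹ * b⁻¹ := by
          have cz := h.cen z hz
          have cw := h.cen w hw
          calc z * a * (w * b) * (z * a)⁻¹ * (w * b)⁻¹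
              = z * (a * w) * b * a⁻¹ * z⁻¹ * b⁻¹ * w⁻¹ := by group
            _ = z * (w * a) * b * a⁻¹ * z⁻¹ * b⁻¹ * w⁻¹ := by rw [← cw a]
            _ = z * (w * (a * b * a⁻¹)) * z⁻¹ * b⁻¹ * w⁻¹ := by group
            _ = (w * (a * b * a⁻¹)) * z * z⁻¹ * b⁻¹ * w⁻¹ := by rw [cz (w * (a * b * a⁻¹))]
            _ = w * (a * b * a⁻¹ * b⁻¹) * w⁻¹ := by group
            _ = (a * b * a⁻¹ * b⁻¹) * w * w⁻¹ := by rw [cw (a * b * a⁻¹ * b⁻¹)]
            _ = a * b * a⁻¹ * b⁻¹ := by group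
        have e3 : c * (a * b * a⁻¹ * b⁻¹) * c⁻¹ = a * b * a⁻¹ * b⁻¹ := e1.trans e2
        rw [commutatorElement_def]
        exact (mul_inv_eq_iff_eq_mul.1 e3).symm
    have := hle (h3 hm)
    rw [Subgroup.mem_centralizer_singleton_iff] at this
    exact this
  have hsup : M ⊔ C = (A5).comap δ := by
    rw [← h.map, Subgroup.comap_map_eq, hCk]
  have hmem : ∀ g, g ∈ M ⊔ C ↔ δ g ∈ A5 := by
    intro g
    rw [hsup]
    exact Subgroup.mem_comap
  refine ⟨h1, ?_, h3, ?_⟩
  · have e1 : Z.subgroupOf M = (δ.comp M.subtype).ker := by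
      ext x
      rw [Subgroup.mem_subgroupOf, MonoidHom.mem_ker, MonoidHom.comp_apply, Subgroup.coe_subtype,
        ← h.ker, ← h.inf]
      exact ⟨fun hx => hx.2, fun hx => ⟨x.2, hx⟩⟩
    have e2 : (δ.comp M.subtype).range = A5 := by
      rw [MonoidHom.range_comp, Subgroup.range_subtype, h.map]
    rw [Subgroup.relIndex, e1, Subgroup.index_ker, e2, card_A5]
  · have hA : A5 ≤ δ.range := by
      rw [← h.map]
      exact Subgroup.map_le_range δ M
    have hCi : C.index = Nat.card δ.range := by rw [hCk, Subgroup.index_ker]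
    rcases above_A5 _ hA with hr | hr
    · left
      refine ⟨?_, ?_⟩
      · rw [eq_top_iff]
        intro g _
        rw [hmem, ← hr]
        exact ⟨g, rfl⟩
      · rw [hCi, hr, card_A5]
    · right
      have hs : Function.Surjective δ := MonoidHom.range_eq_top.1 hr
      refine ⟨hs, ?_, ?_, hmem⟩
      · rw [hsup, Subgroup.index_comap_of_surjective _ hs]
        exact alternatingGroup.index_eq_two
      · rw [hCi, hr, Subgroup.card_top, card_S5]

end Pool.Agent.H67.FI
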