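import Pool.Agent.H6.FI.TargetsC
import Pool.Agent.H6.FI.Lib

/-!
# MP_7500ea_al, row CLF: the Clifford correspondence
-/

open scoped Classical ComplexConjugate

namespace Pool.Agent.H67.FI

open _root_.FI AMc AMt

theorem pf_CLF : T_CLF := by
  intro Γ _ _ K U hKU θ hθ
  obtain ⟨h1, h2⟩ := _root_.FI.Lib.lCC Γ K U hKU θ hθ
  set T := stab U θ with hT
  have hKT : K ≤ T := by
    intro k hk
    refine ⟨hKU.le hk, ?_⟩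
    funext g
    exact (_root_.FI.Lib.lS1 Γ K θ hθ).2.1 k hk g
  -- the map down
  choose! F hF1 hF2 hF3 _ hF5 hF6 _ using h1
  have hbij : Set.BijOn F (Ab U θ) (Ab T θ) := by
    refine ⟨fun χ hχ => ⟨hF1 χ hχ.1 hχ.2, hF2 χ hχ.1 hχ.2⟩, ?_, ?_⟩
    · intro χ hχ χ' hχ' he
      obtain ⟨χ₀, _, _, _, hu⟩ := h2 (F χ) (hF1 χ hχ.1 hχ.2) (hF2 χ hχ.1 hχ.2)
      have e1 := hu χ hχ.1 (hF3 χ hχ.1 hχ.2)
      have e2 := hu χ' hχ'.1 (by rw [he]; exact hF3 χ' hχ'.1 hχ'.2)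
      rw [e1, e2]
    · intro ψ hψ
      obtain ⟨χ, hχ, hχψ, hχθ, _⟩ := h2 ψ hψ.1 hψ.2
      exact ⟨χ, ⟨hχ, hχθ⟩, (hF6 χ hχ hχθ ψ hψ.1 hψ.2 hχψ).symm⟩
  refine ⟨hKT, ?_, ?_⟩
  · unfold kk
    rw [← hbij.image_eq, Set.InjOn.ncard_image hbij.injOn]
  · unfold dd
    have e1 : ∑ᶠ χ ∈ Ab U θ, (χ 1).re = ∑ᶠ ψ ∈ Ab T θ, ((T.relIndex U : ℝ) * (ψ 1).re) := by
      refine finsum_mem_eq_of_bijOn F hbij ?_
      intro χ hχ
      rw [hF5 χ hχ.1 hχ.2]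
      simp [Complex.mul_re]
    rw [e1, ← smul_eq_mul (a := (T.relIndex U : ℝ)), smul_finsum]
    refine finsum_congr fun ψ => ?_
    rw [smul_finsum]
    refine finsum_congr fun _ => ?_
    rw [smul_eq_mul]

end Pool.Agent.H67.FI
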