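import Pool.Agent.H6.FI.TargetsC

/-!
# MP_7500ea_al, row KCL: closure of the class
-/

open scoped Classical ComplexConjugate

namespace Pool.Agent.H67.FI

open _root_.FI AMc AMt

/-- a kernel which embeds in a solvable kernel -/
theorem ker_of_inj {A B C D : Type} [Group A] [Group B] [Group C] [Group D] (f : A →* B)
    (hf : Function.Injective f) (g : A →* C) (h : B →* D) (H : ∀ x, g x = 1 → h (f x) = 1)
    (hs : Group.IsSolvable h.ker) : Group.IsSolvable g.ker := by
  let φ : g.ker →* h.ker := (f.comp g.ker.subtype).codRestrict h.ker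
    (fun x => MonoidHom.mem_ker.2 (H _ (MonoidHom.mem_ker.1 x.2)))
  have hφ : Function.Injective φ := by
    intro x y hxy
    have h1 : f (x : A) = f (y : A) := congrArg Subtype.val hxy
    exact Subtype.ext (hf h1)
  exact Group.isSolvable_of_isSolvable_injective hφ

/-- subgroups of solvable subgroups -/
theorem solv_of_le {A : Type} [Group A] {P Q : Subgroup A} (h : P ≤ Q)
    (hs : Group.IsSolvable Q) : Group.IsSolvable P :=
  Group.isSolvable_of_isSolvable_injective (Subgroup.inclusion_injective h)

/-- images of solvable subgroups -/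
theorem solv_map {A B : Type} [Group A] [Group B] (f : A →* B) {P : Subgroup A}
    (hs : Group.IsSolvable P) : Group.IsSolvable (P.map f) :=
  Group.isSolvable_of_surjective (f.subgroupMap_surjective P)

/-- extension -/
theorem solv_ext {A B C : Type} [Group A] [Group B] [Group C] (b : A →* B) (q : B →* C)
    (hb : Group.IsSolvable b.ker) (hq : Group.IsSolvable q.ker) :
    Group.IsSolvable (q.comp b).ker := by
  let i : b.ker →* (q.comp b).ker := Subgroup.inclusion (by
    intro x hx
    rw [MonoidHom.mem_ker] at hx ⊢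
    rw [MonoidHom.comp_apply, hx, map_one])
  let g : (q.comp b).ker →* q.ker := (b.comp (q.comp b).ker.subtype).codRestrict q.ker
    (fun x => MonoidHom.mem_ker.2 (MonoidHom.mem_ker.1 x.2))
  refine Group.isSolvable_of_ker_le_range i g ?_
  intro x hx
  have h1 : b (x : A) = 1 := congrArg Subtype.val (MonoidHom.mem_ker.1 hx)
  exact ⟨⟨x, MonoidHom.mem_ker.2 h1⟩, Subtype.ext rfl⟩

theorem pf_KCL : T_KCL := by
  intro Y _ _
  refine ⟨?_, ?_, ?_⟩
  · intro X' X _ _ _ _ f hf hX
    obtain ⟨S, Z, _, _, a, b, ha, hb, hsa, hsb⟩ := hX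
    set Z' : Subgroup Z := (a.comp f).range with hZ'
    set S' : Subgroup Y := (Z'.comap b).map S.subtype with hS'
    have hle : S' ≤ S := by
      rintro x ⟨y, _, rfl⟩
      exact y.2
    have hmem : ∀ x : S', b (Subgroup.inclusion hle x) ∈ Z' := by
      rintro ⟨x, y, hy, hyx⟩
      have h1 : Subgroup.inclusion hle ⟨x, y, hy, hyx⟩ = y := Subtype.ext hyx.symm
      rw [h1]
      exact hy
    refine ⟨S', Z', inferInstance, inferInstance, (a.comp f).rangeRestrict,
      (b.comp (Subgroup.inclusion hle)).codRestrict Z' hmem, MonoidHom.rangeRestrict_surjective _,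
      ?_, ?_, ?_⟩
    · rintro ⟨z, hz⟩
      obtain ⟨s, hs⟩ := hb z
      refine ⟨⟨s, s, ?_, rfl⟩, Subtype.ext ?_⟩
      · change b s ∈ Z'
        rw [hs]
        exact hz
      · change b (Subgroup.inclusion hle ⟨s, _⟩) = z
        exact hs
    · refine ker_of_inj f hf _ a ?_ hsa
      intro x hx
      exact congrArg Subtype.val hx
    · refine ker_of_inj (Subgroup.inclusion hle) (Subgroup.inclusion_injective hle) _ b ?_ hsb
      intro x hx
      exact congrArg Subtype.val hx
  · intro X X' _ _ _ _ f hf hfs hX
    obtain ⟨S, Z, _, _, a, b, ha, hb, hsa, hsb⟩ := hX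
    set P : Subgroup Z := f.ker.map a with hP
    have hPs : Group.IsSolvable P := solv_map a hfs
    have hPn : P.Normal := Subgroup.Normal.map inferInstance a ha
    let q : Z →* Z ⧸ P := QuotientGroup.mk' P
    have hq : Function.Surjective q := QuotientGroup.mk'_surjective P
    have hqk : q.ker = P := QuotientGroup.ker_mk' P
    have hle : f.ker ≤ (q.comp a).ker := by
      intro x hx
      rw [MonoidHom.mem_ker, MonoidHom.comp_apply]
      have h1 : a x ∈ q.ker := by
        rw [hqk]
        exact ⟨x, hx, rfl⟩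
      exact h1
    let a'' : X' →* Z ⧸ P := f.liftOfSurjective hf ⟨q.comp a, hle⟩
    have ha'' : ∀ x, a'' (f x) = q (a x) := fun x =>
      f.liftOfRightInverse_comp_apply _ (Function.rightInverse_surjInv hf) ⟨q.comp a, hle⟩ x
    refine ⟨S, Z ⧸ P, inferInstance, inferInstance, a'', q.comp b, ?_, hq.comp hb, ?_, ?_⟩
    · intro z
      obtain ⟨w, rfl⟩ := hq z
      obtain ⟨x, rfl⟩ := ha w
      exact ⟨f x, ha'' x⟩
    · refine solv_of_le (Q := a.ker.map f) ?_ (solv_map f hsa)
      intro x' hx'
      obtain ⟨x, rfl⟩ := hf x'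
      have h1 : q (a x) = 1 := by rw [← ha'' x]; exact hx'
      have h2 : a x ∈ P := by rw [← hqk]; exact h1
      obtain ⟨k, hk, hka⟩ := h2
      refine ⟨x * k⁻¹, ?_, ?_⟩
      · change a (x * k⁻¹) = 1
        rw [map_mul, map_inv, hka, mul_inv_cancel]
      · have hk1 : f k = 1 := hk
        rw [map_mul, map_inv, hk1, inv_one, mul_one]
    · refine solv_ext b q hsb ?_
      rw [hqk]
      exact hPs
  · intro X _ _ f hfs
    refine ⟨f.range, f.range, inferInstance, inferInstance, f.rangeRestrict, MonoidHom.id _,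
      MonoidHom.rangeRestrict_surjective f, Function.surjective_id, ?_, ?_⟩
    · rw [MonoidHom.ker_rangeRestrict]
      exact hfs
    · have h1 : (MonoidHom.id f.range).ker = ⊥ := by
        rw [MonoidHom.ker_eq_bot_iff]
        exact Function.injective_id
      rw [h1]
      infer_instance

end Pool.Agent.H67.FI
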